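import Pool.Agent.Lib.TG_h14.Row
import Pool.Agent.Lib.TGBC_h29.Rows

/-!
# TANK G, BC (4): row RHO in the form of `TGBC_h29.Rows`
-/

set_option autoImplicit false

namespace Pool.Agent.TGh14

universe u

variable {k K : Type u} [Field k] [Field K] [Algebra k K]

theorem rowRho' : Pool.Agent.TGBC.RowRho k K := by
  intro hk hfg n htr H hH hK V hV res hres g hmin hmem hred hmult u hu hsep
  exact rowRho hfg n htr H hH hK V hV res hres g hmin hmem hred hmult u hu hsep

end Pool.Agent.TGh14
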