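import Pool.Agent.Lib.TG_h14.Roots
import Pool.Agent.Lib.TA.Num

/-!
# TANK G, BC (4): the count for a chart
-/

set_option autoImplicit false

namespace Pool.Agent.TGh14

open Module Filter
open Pool.Agent.H15JM (RVal)
open Pool.Agent.LU1 (VPos)
open Pool.Agent.TA (wo)

/-- Numerics. -/
theorem le_of_frequently (n c ρ C : ℕ) (a : ℕ → ℕ)
    (h : ∀ t, c < t → ρ * (t - c - 1 + n).choose n ≤ a t)
    (hf : ∃ᶠ t in atTop, a t < C * t ^ n) : ρ ≤ C * n.factorial := by
  by_contra hlt
  push Not at hlt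
  have h1 : ∃ᶠ t : ℕ in atTop, ((C : ℝ) * n.factorial + 1) * ((t : ℝ) - c) ^ n <
      C * n.factorial * (t : ℝ) ^ n := by
    refine (hf.and_eventually (eventually_gt_atTop c)).mono fun t ht => ?_
    obtain ⟨h2, h3⟩ := ht
    have h4 := h t h3
    have h5 := Pool.Agent.TA.Num.pow_le_fact_mul_choose n (t - c - 1)
    have h6 : t - c - 1 + 1 = t - c := by omega
    rw [h6] at h5
    have h7 : ((t - c : ℕ) : ℝ) = (t : ℝ) - c := by
      rw [Nat.cast_sub h3.le]
    have h8 : (C * n.factorial + 1) * (t - c) ^ n < C * n.factorial * t ^ n := by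
      calc (C * n.factorial + 1) * (t - c) ^ n ≤ ρ * (n.factorial * (t - c - 1 + n).choose n) :=
            Nat.mul_le_mul hlt h5
        _ = n.factorial * (ρ * (t - c - 1 + n).choose n) := by ring
        _ ≤ n.factorial * a t := Nat.mul_le_mul_left _ h4
        _ < n.factorial * (C * t ^ n) := Nat.mul_lt_mul_of_pos_left h2 n.factorial_pos
        _ = C * n.factorial * t ^ n := by ring
    have h9 : (((C * n.factorial + 1) * (t - c) ^ n : ℕ) : ℝ) <
        ((C * n.factorial * t ^ n : ℕ) : ℝ) := by exact_mod_cast h8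
    push_cast [Nat.cast_sub h3.le] at h9
    exact h9
  have h2 : Tendsto (fun t : ℕ => ((C : ℝ) * n.factorial + 1) * (1 - (c : ℝ) * (1 / (t : ℝ))) ^ n)
      atTop (nhds (((C : ℝ) * n.factorial + 1) * (1 - (c : ℝ) * 0) ^ n)) :=
    ((tendsto_const_nhds.sub
      (tendsto_one_div_atTop_nhds_zero_nat.const_mul _)).pow n).const_mul _
  have h3 : ∀ᶠ t : ℕ in atTop, (C : ℝ) * n.factorial <
      ((C : ℝ) * n.factorial + 1) * (1 - (c : ℝ) * (1 / (t : ℝ))) ^ n := by
    refine h2.eventually (lt_mem_nhds ?_)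
    rw [mul_zero, sub_zero, one_pow, mul_one]
    linarith
  obtain ⟨t, h4, h5, h6⟩ := (h1.and_eventually (h3.and (eventually_gt_atTop 0))).exists
  have ht : (0 : ℝ) < t := by exact_mod_cast h6
  have h7 : ((t : ℝ) - c) ^ n = (1 - (c : ℝ) * (1 / (t : ℝ))) ^ n * (t : ℝ) ^ n := by
    rw [← mul_pow]
    congr 1
    field_simp
  rw [h7, ← mul_assoc] at h4
  have h8 : (0 : ℝ) < (t : ℝ) ^ n := by positivity
  have h9 := mul_lt_mul_of_pos_right h5 h8
  linarith

section

variable {k K Ω : Type*} [Field k] [Field K] [Field Ω] [Algebra k K] [Algebra k Ω]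

/-- If `m ^ (r + 1) ≤ (v) m ^ r + m ^ (r + 2)` then a valuation, positive on `m`, takes its minimum
on `m` at one of the `v_i`. -/
theorem ge_one_of_red {R : Type*} [CommRing R] (m : Ideal R) (hm : m.FG) {n : ℕ} (v : Fin n → R)
    (r : ℕ) (hred : m ^ (r + 1) ≤ Ideal.span (Set.range v) * m ^ r ⊔ m ^ (r + 2))
    (φ : R →+* Ω) (ω : RVal Ω) (h0 : ∀ a, ω.Ge 0 (φ a)) (hpos : ∀ a ∈ m, VPos ω (φ a)) (γ : ℝ)
    (hγ : ∀ i, ω.Ge γ (φ (v i))) : ∀ a ∈ m, ω.Ge γ (φ a) := by
  classical
  obtain ⟨s, hs⟩ := hm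
  -- the minimal value
  by_cases hall : ∀ a ∈ s, φ a = 0
  · intro a ha
    rw [← hs] at ha
    have h1 : φ a = 0 := by
      have h2 : Ideal.span (s : Set R) ≤ RingHom.ker φ := by
        rw [Ideal.span_le]
        intro b hb
        exact hall b hb
      exact h2 ha
    rw [h1]
    exact RVal.Ge.zero
  push Not at hall
  obtain ⟨a₁, ha₁, ha₁0⟩ := hall
  obtain ⟨y, hy, hymin⟩ := (s.filter fun a => φ a ≠ 0).exists_min_image (fun a => ω (φ a))
    ⟨a₁, Finset.mem_filter.2 ⟨ha₁, ha₁0⟩⟩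
  rw [Finset.mem_filter] at hy
  obtain ⟨hys, hy0⟩ := hy
  have hym : y ∈ m := by
    rw [← hs]
    exact Ideal.subset_span hys
  set μ := ω (φ y) with hμ
  have hμ0 : 0 < μ := hpos y hym hy0
  have hmμ : ∀ a ∈ m, ω.Ge μ (φ a) := by
    intro a ha
    rw [← hs] at ha
    refine Submodule.span_induction ?_ ?_ ?_ ?_ ha
    · intro b hb hb0
      exact hymin b (Finset.mem_filter.2 ⟨hb, hb0⟩)
    · rw [map_zero]
      exact RVal.Ge.zero
    · intro b c _ _ hb hc
      rw [map_add]
      exact hb.add hc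
    · intro b c _ hc
      rw [smul_eq_mul, map_mul]
      simpa using (h0 b).mul hc
  have hpow : ∀ j : ℕ, ∀ a ∈ m ^ j, ω.Ge (j * μ) (φ a) := by
    intro j
    induction j with
    | zero =>
      intro a _
      rw [Nat.cast_zero, zero_mul]
      exact h0 a
    | succ j ih =>
      intro a ha
      rw [pow_succ] at ha
      refine Submodule.mul_induction_on ha ?_ ?_
      · intro b hb c hc
        rw [map_mul]
        have := (ih b hb).mul (hmμ c hc)
        refine this.mono ?_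
        push_cast
        ring_nf
        exact le_rfl
      · intro b c hb hc
        rw [map_add]
        exact hb.add hc
  have hγμ : γ ≤ μ := by
    by_contra hlt
    push Not at hlt
    have h1 : y ^ (r + 1) ∈ Ideal.span (Set.range v) * m ^ r ⊔ m ^ (r + 2) :=
      hred (Ideal.pow_mem_pow hym _)
    obtain ⟨a, ha, b, hb, hab⟩ := Submodule.mem_sup.1 h1
    set δ := min (γ + r * μ) (((r + 2 : ℕ) : ℝ) * μ) with hδ
    have h2 : ω.Ge (γ + r * μ) (φ a) := by
      refine Submodule.mul_induction_on ha ?_ ?_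
      · intro c hc d hd
        rw [map_mul]
        have h3 : ω.Ge γ (φ c) := by
          refine Submodule.span_induction ?_ ?_ ?_ ?_ hc
          · rintro _ ⟨i, rfl⟩
            exact hγ i
          · rw [map_zero]
            exact RVal.Ge.zero
          · intro c c' _ _ hc hc'
            rw [map_add]
            exact hc.add hc'
          · intro c c' _ hc'
            rw [smul_eq_mul, map_mul]
            simpa using (h0 c).mul hc'
        exact h3.mul (hpow r d hd)
      · intro c d hc hd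
        rw [map_add]
        exact hc.add hd
    have h3 : ω.Ge δ (φ (y ^ (r + 1))) := by
      rw [← hab, map_add]
      exact (h2.mono (min_le_left _ _)).add ((hpow _ b hb).mono (min_le_right _ _))
    have h4 := h3 (by rw [map_pow]; exact pow_ne_zero _ hy0)
    rw [map_pow, ω.map_pow hy0, ← hμ] at h4
    have h5 : ((r + 1 : ℕ) : ℝ) * μ < δ := by
      rw [hδ, lt_min_iff]
      push_cast
      constructor
      · nlinarith
      · nlinarith
    exact absurd h4 (not_le.2 h5)
  exact fun a ha => (hmμ a ha).mono hγμ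

/-- **The count for a chart.** -/
theorem count_chart {n : ℕ} (u : Fin n → K) (R : Subalgebra k K)
    (hfrac : ∀ f : K, ∃ a ∈ R, ∃ b ∈ R, b ≠ 0 ∧ f = a / b) (m : Ideal R) (hm : m.FG)
    (e : R) (he : e - 1 ∈ m) (v : Fin n → R) (hv : ∀ i, (v i : K) = e * u i)
    (r : ℕ) (hred : m ^ (r + 1) ≤ Ideal.span (Set.range v) * m ^ r ⊔ m ^ (r + 2))
    (y : Fin n → Ω) (ω : RVal Ω)
    (hω : ∀ P : MvPolynomial (Fin n) k, P ≠ 0 → MvPolynomial.aeval y P ≠ 0 ∧
      ω (MvPolynomial.aeval y P) = wo (fun _ => 1) P)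
    (Q : Type*) [Fintype Q] (τ : Q → (K →ₐ[k] Ω)) (hτ : Function.Injective τ)
    (hy : ∀ q i, τ q (u i) = y i) (h0 : ∀ q, ∀ a ∈ R, ω.Ge 0 (τ q a))
    (hpos : ∀ q, ∀ a ∈ m, VPos ω (τ q (a : K))) :
    ∃ c : ℕ, ∀ t : ℕ, c < t → FiniteDimensional k (R ⧸ m ^ t) →
      Fintype.card Q * (t - c - 1 + n).choose n ≤ finrank k (R ⧸ m ^ t) := by
  have hωy : ∀ i, y i ≠ 0 ∧ ω (y i) = 1 := by
    intro i
    have h1 := hω (MvPolynomial.X i) (MvPolynomial.X_ne_zero i)
    rw [MvPolynomial.aeval_X, Pool.Agent.TA.wo_X] at h1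
    simpa using h1
  have hee : ∀ q, τ q (e : K) ≠ 0 ∧ ω (τ q (e : K)) = 0 := by
    intro q
    have h1 := hpos q _ he
    have h2 : τ q ((e - 1 : R) : K) = τ q (e : K) - 1 := by
      push_cast
      rw [map_sub, map_one]
    rw [h2] at h1
    by_cases h3 : τ q (e : K) - 1 = 0
    · have h4 : τ q (e : K) = 1 := sub_eq_zero.1 h3
      rw [h4]
      exact ⟨one_ne_zero, ω.map_one⟩
    · have h4 := ω.add_of_lt (x := 1) (y := τ q (e : K) - 1) one_ne_zero h3
        (by rw [ω.map_one]; exact h1 h3)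
      rw [ω.map_one] at h4
      have h5 : (1 : Ω) + (τ q (e : K) - 1) = τ q (e : K) := by ring
      rw [h5] at h4
      exact h4
  let τ' : Q → (R →ₐ[k] Ω) := fun q => (τ q).comp R.val
  have hτ' : ∀ q (a : R), τ' q a = τ q (a : K) := fun q a => rfl
  have hinj : Function.Injective τ' := by
    intro q q' h
    apply hτ
    ext f
    obtain ⟨a, ha, b, hb, hb0, rfl⟩ := hfrac f
    rw [map_div₀, map_div₀]
    have h1 : τ q a = τ q' a := DFunLike.congr_fun h ⟨a, ha⟩
    have h2 : τ q b = τ q' b := DFunLike.congr_fun h ⟨b, hb⟩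
    rw [h1, h2]
  refine count_core m e v Q τ' hinj y (fun q i => ?_) ω (fun q => hee q)
    (fun q a => h0 q a a.2) (fun q a ha => ?_) hω
  · rw [hτ', hτ', hv, map_mul, hy]
  · refine ge_one_of_red m hm v r hred (τ' q : R →+* Ω) ω (fun a => h0 q a a.2)
      (fun a ha => hpos q a ha) 1 (fun i => ?_) a ha
    change ω.Ge 1 (τ q (v i : K))
    rw [hv, map_mul, hy]
    intro _
    rw [ω.map_mul (hee q).1 (hωy i).1, (hee q).2, (hωy i).2, zero_add]

end

end Pool.Agent.TGh14
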