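import Pool.Agent.Lib.TA.Cramer
import Pool.Agent.Lib.TA.Ord

/-!
# TANK G, BC (4): the count

`R` a `k`-algebra, `J` an ideal, `τ_q : R → N` distinct homomorphisms with `τ_q (u_i) = y_i`, `ω` a
real valuation of `N` such that `ω(P(y))` is the order of the polynomial `P`, `ω ≥ 0` on all
`τ_q R`, `ω ≥ 1` on all `τ_q J`.  Then `#Q * binom(t - c - 1 + n, n) ≤ dim R / J^t`, `t > c`.
-/

set_option autoImplicit false

namespace Pool.Agent.TGh14

open Module
open Pool.Agent.H15JM (RVal)
open Pool.Agent.TA (wo wo_le ge_adjugate)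

/-- Many exponents of small degree. -/
theorem exists_exps (n S : ℕ) (hS : 0 < S) : ∃ X : Finset (Fin n →₀ ℕ),
    (S - 1 + n).choose n ≤ X.card ∧ ∀ d ∈ X, ∑ j, d j < S := by
  classical
  obtain ⟨X, hX, hX'⟩ := Pool.Agent.TA.exists_exps 0 n 1 S
  have h1 := Pool.Agent.TA.choose_le_cM (n := n) (r := 0) (D := n) 1 one_pos (by omega) S hS
  rw [pow_zero, one_mul, ← hX] at h1
  let f : (Fin 0 ⊕ Fin n →₀ ℕ) → (Fin n →₀ ℕ) := fun d =>
    Finsupp.equivFunOnFinite.symm fun j => d (Sum.inr j)
  have hf : ∀ d j, f d j = d (Sum.inr j) := fun d j => rfl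
  refine ⟨X.image f, ?_, ?_⟩
  · rw [Finset.card_image_of_injective]
    · exact h1
    · intro d d' h
      ext i
      rcases i with i | i
      · exact i.elim0
      · rw [← hf, h, hf]
  · intro d hd
    obtain ⟨e, he, rfl⟩ := Finset.mem_image.1 hd
    have h2 := hX' e he
    simp only [hf]
    omega

section Core

variable {k N : Type*} [Field k] [Field N] [Algebra k N]

/-- Elements of `O` whose conjugates have a non-zero determinant. -/
theorem exists_det_ne_zero {R : Type*} [Monoid R] (Q : Type*) [Fintype Q] [DecidableEq Q]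
    (τ : Q → (R →* N)) (hτ : Function.Injective τ) :
    ∃ θ : Q → R, (Matrix.of fun q i => τ q (θ i)).det ≠ 0 := by
  classical
  have hli : LinearIndependent N (fun q => (τ q : R → N)) :=
    (linearIndependent_monoidHom R N).comp τ hτ
  -- the vectors `(τ q g)_q` span
  let w : R → (Q → N) := fun g q => τ q g
  have hspan : Submodule.span N (Set.range w) = ⊤ := by
    by_contra hne
    obtain ⟨φ, hφ0, hφ⟩ := Submodule.exists_le_ker_of_lt_top _ (lt_top_iff_ne_top.2 hne)
    apply hφ0
    rw [Fintype.linearIndependent_iff] at hli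
    have h1 := hli (fun q => φ (Pi.single q 1)) (by
      funext g
      have h2 : φ (w g) = 0 := LinearMap.mem_ker.1 (hφ (Submodule.subset_span ⟨g, rfl⟩))
      have h3 : w g = ∑ q, (τ q g) • (Pi.single q (1 : N) : Q → N) := by
        funext q'
        rw [Finset.sum_apply]
        simp only [Pi.smul_apply, Pi.single_apply, smul_eq_mul, mul_ite, mul_one, mul_zero]
        rw [Finset.sum_ite_eq]
        simp [w]
      rw [h3, map_sum] at h2
      simp only [map_smul, smul_eq_mul] at h2
      rw [Finset.sum_apply, Pi.zero_apply, ← h2]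
      refine Finset.sum_congr rfl fun q _ => ?_
      rw [Pi.smul_apply, smul_eq_mul, mul_comm])
    apply LinearMap.pi_ext'
    intro q
    apply LinearMap.ext_ring
    simpa using h1 q
  obtain ⟨s, hs, hb⟩ : ∃ s : Set (Q → N), s ⊆ Set.range w ∧ ∃ b : Basis s N (Q → N),
      ∀ i, b i = (i : Q → N) := by
    obtain ⟨s, hs, hs2, hs3⟩ := exists_linearIndependent N (Set.range w)
    refine ⟨s, hs, Basis.mk hs3 (by
      rw [Subtype.range_coe, hs2, hspan]), fun i => ?_⟩
    rw [Basis.mk_apply]
  obtain ⟨b, hb⟩ := hb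
  let _ : Fintype s := FiniteDimensional.fintypeBasisIndex b
  have hcard : Fintype.card s = Fintype.card Q := by
    rw [← Module.finrank_eq_card_basis b, Module.finrank_fintype_fun_eq_card]
  let e : Q ≃ s := (Fintype.equivOfCardEq hcard).symm
  choose θ hθ using fun i : s => hs i.2
  refine ⟨fun q => θ (e q), ?_⟩
  intro hdet
  obtain ⟨v, hv0, hv⟩ := Matrix.exists_mulVec_eq_zero_iff.2 hdet
  have hli2 := (b.linearIndependent.comp e e.injective)
  rw [Fintype.linearIndependent_iff] at hli2
  apply hv0
  funext q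
  refine hli2 v ?_ q
  funext q'
  have h1 := congrFun hv q'
  rw [Matrix.mulVec, dotProduct, Pi.zero_apply] at h1
  rw [Finset.sum_apply, Pi.zero_apply, ← h1]
  refine Finset.sum_congr rfl fun i _ => ?_
  rw [Pi.smul_apply, smul_eq_mul, Function.comp_apply, hb, ← hθ (e i), Matrix.of_apply, mul_comm]

/-- **The count.**  `R` a `k`-algebra, `J` an ideal, `τ_q : R → N` distinct homomorphisms with
`τ_q (v_i) = τ_q (e) y_i`, `ω` a valuation of `N` with `ω (P(y)) =` the order of `P` for all
polynomials, `ω ≥ 0` on `τ_q R`, `ω ≥ 1` on `τ_q J`, `ω (τ_q (e)) = 0`.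
Then `#Q * binom(t - c - 1 + n, n) ≤ dim R / J^t`. -/
theorem count_core {R : Type*} [CommRing R] [Algebra k R] (J : Ideal R) {n : ℕ} (e : R)
    (v : Fin n → R) (Q : Type*) [Fintype Q] (τ : Q → (R →ₐ[k] N))
    (hτinj : Function.Injective τ) (y : Fin n → N) (hy : ∀ q i, τ q (v i) = τ q e * y i)
    (ω : RVal N) (he : ∀ q, τ q e ≠ 0 ∧ ω (τ q e) = 0)
    (hO : ∀ q g, ω.Ge 0 (τ q g)) (hJ : ∀ q, ∀ g ∈ J, ω.Ge 1 (τ q g))
    (hω : ∀ P : MvPolynomial (Fin n) k, P ≠ 0 → MvPolynomial.aeval y P ≠ 0 ∧
      ω (MvPolynomial.aeval y P) = wo (fun _ => 1) P) :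
    ∃ c : ℕ, ∀ t : ℕ, c < t → FiniteDimensional k (R ⧸ J ^ t) →
      Fintype.card Q * (t - c - 1 + n).choose n ≤ finrank k (R ⧸ J ^ t) := by
  classical
  obtain ⟨θ, hθ⟩ := exists_det_ne_zero Q (fun q => (τ q : R →* N)) (fun q q' h => hτinj (by
    ext g
    exact DFunLike.congr_fun h g))
  set Δ : N := (Matrix.of fun q i => (τ q : R →* N) (θ i)).det with hΔ
  obtain ⟨c, hc⟩ := exists_nat_ge (ω Δ)
  refine ⟨c, fun t ht hfin => ?_⟩
  obtain ⟨X, hX, hX'⟩ := exists_exps n (t - c) (by omega)
  -- powers of `J`
  have hJt : ∀ s : ℕ, ∀ q, ∀ g ∈ J ^ s, ω.Ge s (τ q g) := by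
    intro s
    induction s with
    | zero =>
      intro q g _
      rw [Nat.cast_zero]
      exact hO q g
    | succ s ih =>
      intro q g hg
      rw [pow_succ] at hg
      refine Submodule.mul_induction_on hg ?_ ?_
      · intro a ha b hb
        have h1 := (ih q a ha).mul (hJ q b hb)
        rw [map_mul]
        push_cast
        exact h1
      · intro a b ha hb
        rw [map_add]
        exact ha.add hb
  -- the polynomials
  let mon : (Fin n →₀ ℕ) → R := fun d => e ^ (t - ∑ i, d i) * ∏ i, v i ^ d i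
  have hmon : ∀ q, ∀ d ∈ X, τ q (mon d) = τ q e ^ t * MvPolynomial.aeval y
      (MvPolynomial.monomial d (1 : k)) := by
    intro q d hd
    have hdt : ∑ i, d i ≤ t := by
      have := hX' d hd
      omega
    rw [MvPolynomial.aeval_monomial, map_one, one_mul]
    simp only [mon]
    rw [Finsupp.prod_fintype _ _ (fun i => pow_zero _), map_mul, map_prod, map_pow]
    have h1 : ∀ i, τ q (v i ^ d i) = τ q e ^ d i * y i ^ d i := by
      intro i
      rw [map_pow, hy, mul_pow]
    simp only [h1]
    rw [Finset.prod_mul_distrib, Finset.prod_pow_eq_pow_sum, ← mul_assoc, ← pow_add,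
      Nat.sub_add_cancel hdt]
  let L : (Q × X → k) →ₗ[k] R ⧸ J ^ t :=
    { toFun := fun a => Ideal.Quotient.mk (J ^ t)
        (∑ q, ∑ d : X, a (q, d) • (θ q * mon d))
      map_add' := fun a b => by
        rw [← map_add, ← Finset.sum_add_distrib]
        congr 1
        refine Finset.sum_congr rfl fun q _ => ?_
        rw [← Finset.sum_add_distrib]
        refine Finset.sum_congr rfl fun d _ => ?_
        rw [Pi.add_apply, add_smul]
      map_smul' := fun r a => by
        rw [RingHom.id_apply]
        have h1 : (∑ q, ∑ d : X, (r • a) (q, d) • (θ q * mon d)) =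
            r • ∑ q, ∑ d : X, a (q, d) • (θ q * mon d) := by
          rw [Finset.smul_sum]
          refine Finset.sum_congr rfl fun q _ => ?_
          rw [Finset.smul_sum]
          refine Finset.sum_congr rfl fun d _ => ?_
          rw [Pi.smul_apply, smul_eq_mul, mul_smul]
        rw [h1]
        rfl }
  have hL : Function.Injective L := by
    rw [injective_iff_map_eq_zero]
    intro a ha
    have h1 : (∑ q, ∑ d : X, a (q, d) • (θ q * mon d)) ∈ J ^ t :=
      Ideal.Quotient.eq_zero_iff_mem.1 ha
    let P : Q → MvPolynomial (Fin n) k := fun q =>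
      ∑ d : X, MvPolynomial.monomial (d : Fin n →₀ ℕ) (a (q, d))
    have hP : ∀ q q', τ q' e ^ t * MvPolynomial.aeval y (P q) =
        ∑ d : X, a (q, d) • τ q' (mon d) := by
      intro q q'
      simp only [P]
      rw [map_sum, Finset.mul_sum]
      refine Finset.sum_congr rfl fun d _ => ?_
      rw [hmon q' d d.2, MvPolynomial.aeval_monomial, MvPolynomial.aeval_monomial, map_one,
        one_mul, Algebra.smul_def]
      ring
    -- the conjugates
    have h2 : ∀ q : Q, ω.Ge t (∑ i, τ q (θ i) * MvPolynomial.aeval y (P i)) := by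
      intro q
      have h3 := hJt t q _ h1
      have h4 : τ q (∑ q, ∑ d : X, a (q, d) • (θ q * mon d)) =
          τ q e ^ t * ∑ i, τ q (θ i) * MvPolynomial.aeval y (P i) := by
        rw [map_sum, Finset.mul_sum]
        refine Finset.sum_congr rfl fun i _ => ?_
        rw [mul_left_comm, hP i q, map_sum, Finset.mul_sum]
        refine Finset.sum_congr rfl fun d _ => ?_
        rw [map_smul, map_mul, mul_smul_comm]
      rw [h4] at h3
      intro hne
      have h5 := h3 (mul_ne_zero (pow_ne_zero _ (he q).1) hne)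
      rw [ω.map_mul (pow_ne_zero _ (he q).1) hne, ω.map_pow (he q).1, (he q).2, mul_zero,
        zero_add] at h5
      exact h5
    -- Cramer
    set M : Matrix Q Q N := Matrix.of fun q i => (τ q : R →* N) (θ i) with hM
    have hM0 : ∀ q i, ω.Ge 0 (M q i) := fun q i => hO q (θ i)
    have h3 : ∀ i, ω.Ge t (Δ * MvPolynomial.aeval y (P i)) := by
      intro i
      have h4 : M.adjugate.mulVec (M.mulVec fun i => MvPolynomial.aeval y (P i)) =
          Δ • fun i => MvPolynomial.aeval y (P i) := by
        rw [Matrix.mulVec_mulVec, Matrix.adjugate_mul, Matrix.smul_mulVec, Matrix.one_mulVec]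
      have h5 := congrFun h4 i
      rw [Pi.smul_apply, smul_eq_mul] at h5
      rw [← h5, Matrix.mulVec, dotProduct]
      refine RVal.Ge.sum _ _ fun q _ => ?_
      have h6 : ω.Ge 0 (M.adjugate i q) := by
        rw [Matrix.adjugate_apply, Matrix.det_apply']
        refine RVal.Ge.sum _ _ fun s _ => ?_
        have h7 := RVal.Ge.prod (v := ω) (fun _ => (0 : ℝ)) Finset.univ
          (fun j => (M.updateRow q (Pi.single i 1)) (s j) j) (fun j _ => by
            rw [Matrix.updateRow_apply]
            split_ifs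
            · by_cases hb : j = i
              · subst hb
                rw [Pi.single_eq_same]
                exact Pool.Agent.TA.ge_one
              · rw [Pi.single_eq_of_ne hb]
                exact RVal.Ge.zero
            · exact hM0 _ _)
        have h8 : ω.Ge 0 (((Equiv.Perm.sign s : ℤˣ) : ℤ) : N) := by
          rcases Int.units_eq_one_or (Equiv.Perm.sign s) with h | h
          · rw [h]; simpa using (Pool.Agent.TA.ge_one : ω.Ge 0 (1 : N))
          · rw [h]; simpa using (Pool.Agent.TA.ge_neg_one : ω.Ge 0 (-1 : N))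
        have h9 := h8.mul h7
        simpa using h9
      have h7 : ω.Ge t (M.mulVec (fun i => MvPolynomial.aeval y (P i)) q) := h2 q
      simpa using h6.mul h7
    -- all polynomials vanish
    have h4 : ∀ i, P i = 0 := by
      intro i
      by_contra hPi
      obtain ⟨h5, h6⟩ := hω _ hPi
      have h7 := h3 i (mul_ne_zero hθ h5)
      rw [ω.map_mul hθ h5, h6] at h7
      obtain ⟨d, hd, -⟩ := Pool.Agent.TA.exists_wo (fun _ => 1) hPi
      have h8 := wo_le (fun _ => 1) hd
      have h9 : d ∈ X := by
        by_contra hdX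
        rw [MvPolynomial.mem_support_iff] at hd
        apply hd
        simp only [P]
        rw [MvPolynomial.coeff_sum]
        refine Finset.sum_eq_zero fun e _ => ?_
        rw [MvPolynomial.coeff_monomial, if_neg]
        rintro rfl
        exact hdX e.2
      have h10 := hX' d h9
      have h11 : Finsupp.weight (fun _ => 1) d = ∑ j, d j := by
        rw [Finsupp.weight_apply, Finsupp.sum_fintype _ _ (fun i => by simp)]
        simp
      rw [h11] at h8
      have h12 : (wo (fun _ => 1) (P i) : ℝ) + 1 ≤ t - c := by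
        have : wo (fun _ => 1) (P i) + 1 + c ≤ t := by omega
        have h13 : ((wo (fun _ => 1) (P i) + 1 + c : ℕ) : ℝ) ≤ t := by exact_mod_cast this
        push_cast at h13
        linarith
      linarith
    funext ⟨q, d⟩
    have h5 := congrArg (MvPolynomial.coeff (d : Fin n →₀ ℕ)) (h4 q)
    simp only [P] at h5
    rw [MvPolynomial.coeff_sum, MvPolynomial.coeff_zero] at h5
    rw [Pi.zero_apply, ← h5]
    rw [Finset.sum_eq_single d]
    · rw [MvPolynomial.coeff_monomial, if_pos rfl]
    · intro e _ he
      rw [MvPolynomial.coeff_monomial, if_neg]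
      intro h6
      exact he (Subtype.ext h6)
    · intro h6
      exact absurd (Finset.mem_univ d) h6
  have h1 := LinearMap.finrank_le_finrank_of_injective hL
  rw [Module.finrank_fintype_fun_eq_card, Fintype.card_prod, Fintype.card_coe] at h1
  exact (Nat.mul_le_mul_left _ hX).trans h1

end Core

end Pool.Agent.TGh14
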