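import Pool.Agent.Lib.TG_h14.Chart
import Pool.Agent.Lib.TG_h82.Rho

/-!
# TANK G, BC (4): the local degrees at the points over `x` are bounded by the multiplicity
-/

set_option autoImplicit false

namespace Pool.Agent.TGh14

open Module Filter
open Pool.Agent.H15JM (RVal)
open Pool.Agent.LU1 (VPos exists_extVal)
open Pool.Agent.TA (wo)
open Pool.Agent.TG (ncl up)
open Pool.Agent.TG82 (toC mapC cen rho rhoQ)

universe u

section Order

variable {k F Ω : Type u} [Field k] [Field F] [Field Ω] [Algebra k F] [Algebra F Ω] [Algebra k Ω]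
  [IsScalarTower k F Ω]

/-- The order valuation of `k(u)`, extended to an algebraic extension. -/
theorem exists_order [Algebra.IsAlgebraic F Ω] {n : ℕ} (u : Fin n → F)
    (hu : AlgebraicIndependent k u) (hF : IntermediateField.adjoin k (Set.range u) = ⊤) :
    ∃ ω : RVal Ω, ∀ P : MvPolynomial (Fin n) k, P ≠ 0 →
      MvPolynomial.aeval (fun i => algebraMap F Ω (u i)) P ≠ 0 ∧
      ω (MvPolynomial.aeval (fun i => algebraMap F Ω (u i)) P) = wo (fun _ => 1) P := by
  let ι : MvPolynomial (Fin n) k →+* F := (MvPolynomial.aeval (R := k) u).toRingHom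
  have hι : ∀ P, ι P = MvPolynomial.aeval u P := fun P => rfl
  have hinj : Function.Injective ι := hu
  obtain ⟨o, ho⟩ := Pool.Agent.TA.exists_rval_fraction ι hinj (fun z => by
    have h1 : z ∈ IntermediateField.adjoin k (Set.range u) := by rw [hF]; trivial
    rw [IntermediateField.mem_adjoin_iff_div] at h1
    obtain ⟨r, hr, s, hs, hz⟩ := h1
    rw [Algebra.adjoin_range_eq_range_aeval] at hr hs
    obtain ⟨a, rfl⟩ := hr
    obtain ⟨b, rfl⟩ := hs
    by_cases hb : b = 0
    · refine ⟨0, 1, one_ne_zero, ?_⟩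
      rw [hz, hb]
      simp
    · exact ⟨a, b, hb, hz⟩) (fun P => (wo (fun _ => 1) P : ℝ))
    (fun a b ha hb => by
      rw [Pool.Agent.TA.wo_mul _ ha hb]
      push_cast
      ring)
    (fun a b ha hb hab => by exact_mod_cast Pool.Agent.TA.wo_add _ ha hb hab)
  obtain ⟨ω, hω⟩ := exists_extVal F Ω o
  refine ⟨ω, fun P hP => ?_⟩
  have h1 : MvPolynomial.aeval (fun i => algebraMap F Ω (u i)) P = algebraMap F Ω (ι P) :=
    MvPolynomial.aeval_algebraMap_apply Ω u P
  have h2 : ι P ≠ 0 := fun h => hP (hinj (by rw [h, map_zero]))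
  rw [h1]
  exact ⟨by simpa using h2, by rw [hω _ h2, ho _ hP]⟩

/-- The residue point of the order valuation on the integral closure of `k[u]`. -/
theorem exists_residue [IsAlgClosed k] {n : ℕ} (u : Fin n → F) (ω : RVal Ω)
    (hω : ∀ P : MvPolynomial (Fin n) k, P ≠ 0 →
      MvPolynomial.aeval (fun i => algebraMap F Ω (u i)) P ≠ 0 ∧
      ω (MvPolynomial.aeval (fun i => algebraMap F Ω (u i)) P) = wo (fun _ => 1) P)
    (A : Subalgebra k F) (hA : A = Algebra.adjoin k (Set.range u)) (hmem : ∀ i, u i ∈ A)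
    (z : A →ₐ[k] k) (hz : ∀ i, z ⟨u i, hmem i⟩ = 0) :
    ∃ Q : ncl (up Ω A) →ₐ[k] k, Q.comp (toC Ω A) = z ∧
      (∀ a : ncl (up Ω A), ω.Ge 0 (a : Ω)) ∧ ∀ a : ncl (up Ω A), Q a = 0 ↔ VPos ω (a : Ω) := by
  -- elements of `A` as polynomials
  have hpol : ∀ a : A, ∃ P : MvPolynomial (Fin n) k, MvPolynomial.aeval u P = (a : F) ∧
      z a = MvPolynomial.constantCoeff P := by
    rintro ⟨a, ha⟩
    have ha' := ha
    rw [hA, Algebra.adjoin_range_eq_range_aeval] at ha'
    obtain ⟨P, hP⟩ := ha'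
    refine ⟨P, hP, ?_⟩
    have h1 : (⟨a, ha⟩ : A) = MvPolynomial.aeval (fun i => (⟨u i, hmem i⟩ : A)) P := by
      apply Subtype.ext
      refine (show a = MvPolynomial.aeval u P from hP.symm).trans ?_
      exact (MvPolynomial.comp_aeval_apply (fun i => (⟨u i, hmem i⟩ : A)) A.val P).symm
    rw [h1, ← AlgHom.comp_apply, MvPolynomial.comp_aeval]
    have h2 : (fun i => z (⟨u i, hmem i⟩ : A)) = fun _ => 0 := funext fun i => hz i
    rw [h2]
    have h3 : MvPolynomial.aeval (fun _ => (0 : k)) P = MvPolynomial.constantCoeff P := by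
      rw [MvPolynomial.aeval_zero']
      simp
    exact h3
  have hconst : ∀ c : k, ω.Ge 0 (algebraMap k Ω c) := by
    intro c hc
    have hc0 : (MvPolynomial.C c : MvPolynomial (Fin n) k) ≠ 0 := by
      intro h
      have : c = 0 := by simpa using h
      rw [this, map_zero] at hc
      exact hc rfl
    have h1 := hω _ hc0
    rw [MvPolynomial.aeval_C] at h1
    rw [h1.2]
    positivity
  have hAge : ∀ a : up Ω A, ω.Ge 0 (a : Ω) := by
    rintro ⟨_, a, ha, rfl⟩
    obtain ⟨P, hP, -⟩ := hpol ⟨a, ha⟩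
    intro h0
    have h1 : P ≠ 0 := by
      rintro rfl
      apply h0
      change algebraMap F Ω a = 0
      rw [map_zero] at hP
      have : a = 0 := hP.symm
      rw [this, map_zero]
    have h2 := hω P h1
    have h3 : MvPolynomial.aeval (fun i => algebraMap F Ω (u i)) P = algebraMap F Ω a :=
      (MvPolynomial.aeval_algebraMap_apply Ω u P).trans (congrArg _ hP)
    rw [h3] at h2
    change 0 ≤ ω (algebraMap F Ω a)
    rw [h2.2]
    positivity
  have hCge : ∀ a : ncl (up Ω A), ω.Ge 0 (a : Ω) := fun a =>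
    Pool.Agent.TA.ge_of_isIntegral hAge a.2
  let I : Ideal (ncl (up Ω A)) :=
    { carrier := {a | VPos ω (a : Ω)}
      add_mem' := fun ha hb => Pool.Agent.LU1.VPos.add ha hb
      zero_mem' := Pool.Agent.LU1.VPos.zero
      smul_mem' := fun a _ hb => Pool.Agent.LU1.VPos.mul' (hCge a) hb }
  have hI : ∀ a, a ∈ I ↔ VPos ω (a : Ω) := fun a => Iff.rfl
  have hprime : I.IsPrime := by
    refine ⟨?_, ?_⟩
    · intro h
      have h1 : (1 : ncl (up Ω A)) ∈ I := by rw [h]; trivial
      have h2 : VPos ω (1 : Ω) := h1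
      have h3 := h2 one_ne_zero
      rw [ω.map_one] at h3
      exact lt_irrefl _ h3
    · intro a b hab
      by_contra hcon
      push Not at hcon
      obtain ⟨ha, hb⟩ := hcon
      have ha' : ¬ VPos ω (a : Ω) := ha
      have hb' : ¬ VPos ω (b : Ω) := hb
      unfold VPos at ha' hb'
      push Not at ha' hb'
      have h1 : VPos ω ((a : Ω) * (b : Ω)) := hab
      have h2 := h1 (mul_ne_zero ha'.1 hb'.1)
      rw [ω.map_mul ha'.1 hb'.1] at h2
      linarith [ha'.2, hb'.2]
  obtain ⟨Q, hQ, hQI⟩ := Pool.Agent.TG82.exists_of_prime (toC Ω A) (fun d => by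
    obtain ⟨p, hp, hpd⟩ := d.2
    let φ : up Ω A →+* (toC Ω A).range := RingHom.codRestrict (
      (algebraMap (up Ω A) Ω).codRestrict (ncl (up Ω A)).toSubring
        (fun b => TG.le_ncl _ b.2)) (toC Ω A).range.toSubring (by
        rintro ⟨_, b, hb, rfl⟩
        exact ⟨⟨b, hb⟩, rfl⟩)
    refine ⟨p.map φ, hp.map _, ?_⟩
    rw [Polynomial.eval₂_map]
    apply Subtype.ext
    have h2 : (ncl (up Ω A)).val (Polynomial.eval₂ ((algebraMap (toC Ω A).range
        (ncl (up Ω A))).comp φ) d p) = 0 := by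
      have h3 := Polynomial.hom_eval₂ p ((algebraMap (toC Ω A).range
        (ncl (up Ω A))).comp φ) ((ncl (up Ω A)).val : ncl (up Ω A) →+* Ω) d
      refine h3.trans ?_
      exact hpd
    exact h2) z I (by
    ext a
    rw [Ideal.mem_comap, RingHom.mem_ker]
    obtain ⟨P, hP, hPz⟩ := hpol a
    rw [hPz, hI]
    have h1 : ((toC Ω A a : ncl (up Ω A)) : Ω) =
        MvPolynomial.aeval (fun i => algebraMap F Ω (u i)) P :=
      ((MvPolynomial.aeval_algebraMap_apply Ω u P).trans (congrArg _ hP)).symm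
    change VPos ω ((toC Ω A a : ncl (up Ω A)) : Ω) ↔ _
    rw [h1]
    by_cases hP0 : P = 0
    · subst hP0
      rw [map_zero, map_zero]
      exact ⟨fun _ => rfl, fun _ => Pool.Agent.LU1.VPos.zero⟩
    obtain ⟨h2, h3⟩ := hω P hP0
    constructor
    · intro h4
      have h5 := h4 h2
      rw [h3] at h5
      by_contra h6
      have h7 : (0 : Fin n →₀ ℕ) ∈ P.support := by
        rw [MvPolynomial.mem_support_iff]
        exact h6
      have h8 := Pool.Agent.TA.wo_le (fun _ => 1) h7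
      rw [map_zero] at h8
      have h9 : (0 : ℝ) < wo (fun _ => 1) P := h5
      have h10 : wo (fun _ => 1) P = 0 := Nat.le_zero.1 h8
      rw [h10] at h9
      simp at h9
    · intro h4 _
      rw [h3]
      obtain ⟨d, hd, hdw⟩ := Pool.Agent.TA.exists_wo (fun _ => 1) hP0
      have h5 : d ≠ 0 := by
        rintro rfl
        rw [MvPolynomial.mem_support_iff] at hd
        exact hd h4
      rw [← hdw]
      have h6 : Finsupp.weight (fun _ => 1) d = ∑ j, d j := by
        rw [Finsupp.weight_apply, Finsupp.sum_fintype _ _ (fun i => by simp)]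
        simp
      rw [h6]
      have h7 : 0 < ∑ j, d j := by
        rw [Finset.sum_pos_iff]
        by_contra h8
        push Not at h8
        apply h5
        ext j
        have := h8 j (Finset.mem_univ j)
        simpa using this
      exact_mod_cast h7)
  exact ⟨Q, hQ, hCge, fun a => (hQI a).trans (hI a)⟩

end Order

section Rho

variable {k F L : Type u} [Field k] [IsAlgClosed k] [Field F] [Field L] [Algebra k F] [Algebra k L]
  [Algebra F L] [IsScalarTower k F L] [FiniteDimensional F L] [Algebra.IsSeparable F L]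

/-- **BC4.**  The sum of the local degrees at points of the integral closure `C` of `k[u]` lying
over a point `m` of a `k`-algebra `R` is at most `n!` times the multiplicity of `m`. -/
theorem sum_rho_le {n : ℕ} (u : Fin n → F) (hu : AlgebraicIndependent k u)
    (hF : IntermediateField.adjoin k (Set.range u) = ⊤)
    (A : Subalgebra k F) (hAu : A = Algebra.adjoin k (Set.range u)) (hmem : ∀ i, u i ∈ A)
    (hA : ∀ b : F, IsIntegral A b → b ∈ A)
    (X : Finset (ncl (up L A) →ₐ[k] k)) (hX : ∀ x ∈ X, ∀ i, x (toC L A ⟨u i, hmem i⟩) = 0)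
    (R : Subalgebra k L) (hfrac : ∀ f : L, ∃ a ∈ R, ∃ b ∈ R, b ≠ 0 ∧ f = a / b)
    (m : Ideal R) (hm : m.FG) (v : Fin n → R) (hv : ∀ i, (v i : L) = algebraMap F L (u i))
    (r : ℕ) (hred : m ^ (r + 1) ≤ Ideal.span (Set.range v) * m ^ r ⊔ m ^ (r + 2))
    (hR : ∀ x ∈ X, ∀ a : R, ∃ b s : ncl (up L A),
      x s ≠ 0 ∧ (a : L) * s = b ∧ (a ∈ m → x b = 0))
    (C : ℕ) (hfin : ∀ t, FiniteDimensional k (R ⧸ m ^ t))
    (hmult : ∃ᶠ t in atTop, finrank k (R ⧸ m ^ t) < C * t ^ n) :
    ∑ x ∈ X, rho A x ≤ C * n.factorial := by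
  classical
  let Ω := AlgebraicClosure L
  have halg : Algebra.IsAlgebraic F Ω := Algebra.IsAlgebraic.trans F L Ω
  obtain ⟨ω, hω⟩ := exists_order (Ω := Ω) u hu hF
  -- the point of `A`
  by_cases hXe : X = ∅
  · subst hXe
    simp
  obtain ⟨x₀, hx₀⟩ := Finset.nonempty_iff_ne_empty.2 hXe
  obtain ⟨Q, hQz, hQge, hQ⟩ := exists_residue (Ω := Ω) u ω hω A hAu hmem (x₀.comp (toC L A))
    (fun i => hX x₀ hx₀ i)
  have hover : ∀ x ∈ X, x.comp (toC L A) = Q.comp (toC Ω A) := by
    intro x hx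
    rw [hQz]
    -- two points of `A` with the same values at the `u i`
    have h1 : ∀ (z z' : A →ₐ[k] k), (∀ i, z ⟨u i, hmem i⟩ = z' ⟨u i, hmem i⟩) → z = z' := by
      subst hAu
      intro z z' h
      apply AlgHom.ext
      rintro ⟨a, ha⟩
      refine Algebra.adjoin_induction (p := fun a ha => z ⟨a, ha⟩ = z' ⟨a, ha⟩) ?_ ?_ ?_ ?_ ha
      · rintro _ ⟨i, rfl⟩
        exact h i
      · intro c
        exact (z.commutes c).trans (z'.commutes c).symm
      · intro a b ha hb h2 h3
        exact (map_add z ⟨a, ha⟩ ⟨b, hb⟩).trans ((congrArg₂ (· + ·) h2 h3).trans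
          (map_add z' ⟨a, ha⟩ ⟨b, hb⟩).symm)
      · intro a b ha hb h2 h3
        exact (map_mul z ⟨a, ha⟩ ⟨b, hb⟩).trans ((congrArg₂ (· * ·) h2 h3).trans
          (map_mul z' ⟨a, ha⟩ ⟨b, hb⟩).symm)
    refine h1 _ _ fun i => ?_
    exact (hX x hx i).trans (hX x₀ hx₀ i).symm
  -- the embeddings
  have hfinE : Fintype (L →ₐ[F] Ω) := Fintype.ofFinite _
  let E := {σ : L →ₐ[F] Ω // cen A Q σ ∈ X}
  have hsum : ∑ x ∈ X, rho A x = Fintype.card E := by
    have h1 : ∀ x ∈ X, rho A x = Fintype.card {σ : L →ₐ[F] Ω // cen A Q σ = x} := by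
      intro x hx
      rw [Pool.Agent.TG82.rho_eq hA Q x (hover x hx), rhoQ, Algebra.IsSeparable.finInsepDegree_eq,
        one_mul, Nat.card_eq_fintype_card]
    rw [Finset.sum_congr rfl h1]
    simp only [E, Fintype.card_subtype]
    rw [← Finset.card_biUnion]
    · congr 1
      ext σ
      simp
    · intro x _ x' _ hne
      rw [Function.onFun, Finset.disjoint_left]
      intro σ h2 h3
      rw [Finset.mem_filter] at h2 h3
      exact hne (h2.2.symm.trans h3.2)
  rw [hsum]
  -- values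
  have hval : ∀ σ : L →ₐ[F] Ω, ∀ b : ncl (up L A), ω.Ge 0 (σ b) ∧
      (cen A Q σ b = 0 ↔ VPos ω (σ b)) := by
    intro σ b
    exact ⟨hQge (mapC A σ b), hQ (mapC A σ b)⟩
  have hRval : ∀ q : E, ∀ a : R, ω.Ge 0 (q.1 (a : L)) ∧ (a ∈ m → VPos ω (q.1 (a : L))) := by
    rintro ⟨σ, hσ⟩ a
    obtain ⟨b, s, hs, hab, hb⟩ := hR _ hσ a
    obtain ⟨h1, h2⟩ := hval σ s
    obtain ⟨h3, h4⟩ := hval σ b
    have h5 : ¬ VPos ω (σ s) := fun h => hs (h2.2 h)
    unfold VPos at h5
    push Not at h5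
    have h6 : ω (σ s) = 0 := le_antisymm h5.2 (h1 h5.1)
    have h7 : σ (a : L) * σ s = σ b := by rw [← map_mul, hab]
    constructor
    · intro h8
      have h9 := h3 (by rw [← h7]; exact mul_ne_zero h8 h5.1)
      rw [← h7, ω.map_mul h8 h5.1, h6, add_zero] at h9
      exact h9
    · intro ham h8
      have h9 := h4.1 (hb ham) (by rw [← h7]; exact mul_ne_zero h8 h5.1)
      rw [← h7, ω.map_mul h8 h5.1, h6, add_zero] at h9
      exact h9
  obtain ⟨c, hc⟩ := count_chart (Ω := Ω) (fun i => algebraMap F L (u i)) R hfrac m hm 1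
    (by rw [sub_self]; exact zero_mem _) v (fun i => by rw [hv, OneMemClass.coe_one, one_mul])
    r hred (fun i => algebraMap F Ω (u i)) ω hω E (fun q => (q.1).restrictScalars k)
    (fun q q' h => Subtype.ext (AlgHom.ext fun a => DFunLike.congr_fun h a))
    (fun q i => q.1.commutes (u i)) (fun q a ha => (hRval q ⟨a, ha⟩).1)
    (fun q a ha => (hRval q a).2 ha)
  exact le_of_frequently n c _ C _ (fun t ht => hc t ht (hfin t)) hmult

end Rho

end Pool.Agent.TGh14
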