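import Pool.Agent.Lib.TG_h14.Poly

/-!
# TANK G, BC (4): the bound in the language of block C
-/

set_option autoImplicit false

namespace Pool.Agent.TGh14

open Module Filter
open Pool.Agent.TG (ncl up)
open Pool.Agent.TG82 (toC)
open Pool.Agent.TGJ (icf kf Over0 IsRho Doms)

universe u

variable {k L : Type u} [Field k] [Field L] [Algebra k L]

/-- The generators as elements of `k(f)`. -/
def gen (k : Type u) [Field k] {L : Type u} [Field L] [Algebra k L] {n : ℕ} (f : Fin n → L)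
    (i : Fin n) : IntermediateField.adjoin k (Set.range f) :=
  ⟨f i, IntermediateField.subset_adjoin k _ ⟨i, rfl⟩⟩

theorem gen_indep {n : ℕ} {f : Fin n → L} (hf : AlgebraicIndependent k f) :
    AlgebraicIndependent k (gen k f) :=
  ((IntermediateField.adjoin k (Set.range f)).val.algebraicIndependent_iff
    (IntermediateField.adjoin k (Set.range f)).val.injective).1 hf

theorem gen_top {n : ℕ} (f : Fin n → L) :
    IntermediateField.adjoin k (Set.range (gen k f)) = ⊤ := by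
  apply IntermediateField.lift_injective (IntermediateField.adjoin k (Set.range f))
  rw [IntermediateField.lift_adjoin, IntermediateField.lift_top, ← Set.range_comp]
  rfl

theorem up_gen {n : ℕ} (f : Fin n → L) :
    up L (Algebra.adjoin k (Set.range (gen k f))) = kf k f := by
  unfold up
  rw [AlgHom.map_adjoin, ← Set.range_comp]
  rfl

/-- The auxiliary form. -/
theorem sum_le_aux [IsAlgClosed k] {n : ℕ} (f : Fin n → L) (hf : AlgebraicIndependent k f)
    [FiniteDimensional (IntermediateField.adjoin k (Set.range f)) L]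
    [Algebra.IsSeparable (IntermediateField.adjoin k (Set.range f)) L]
    (B : Subalgebra k L) (hB : B = up L (Algebra.adjoin k (Set.range (gen k f))))
    (hmemB : ∀ i, f i ∈ ncl B) (ov : (ncl B →ₐ[k] k) → Prop)
    (hover : ∀ x, ov x ↔ ∀ i, x ⟨f i, hmemB i⟩ = 0) (r : (ncl B →ₐ[k] k) → ℕ)
    (hfin : {x | ov x}.Finite) (hsupp : ∀ x, r x ≠ 0 ↔ ov x)
    (hnorm : ∀ a : ncl B, ∃ N : ncl B,
      (N : L) = ((Algebra.norm (IntermediateField.adjoin k (Set.range f)) (a : L) :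
        IntermediateField.adjoin k (Set.range f)) : L) ∧
      ∀ x, ov x → x N = ∏ᶠ y : ncl B →ₐ[k] k, y a ^ r y)
    (X : Finset (ncl B →ₐ[k] k)) (hX : ∀ x ∈ X, ov x)
    (R : Subalgebra k L) (hfrac : ∀ f : L, ∃ a ∈ R, ∃ b ∈ R, b ≠ 0 ∧ f = a / b)
    (m : Ideal R) (hm : m.FG) (v : Fin n → R) (hv : ∀ i, (v i : L) = f i)
    (s : ℕ) (hred : m ^ (s + 1) ≤ Ideal.span (Set.range v) * m ^ s ⊔ m ^ (s + 2))
    (hR : ∀ x ∈ X, ∀ a : R, ∃ b s : ncl B, x s ≠ 0 ∧ (a : L) * s = b ∧ (a ∈ m → x b = 0))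
    (C : ℕ) (hfinR : ∀ t, FiniteDimensional k (R ⧸ m ^ t))
    (hmult : ∃ᶠ t in atTop, finrank k (R ⧸ m ^ t) < C * t ^ n) :
    ∑ x ∈ X, r x ≤ C * n.factorial := by
  classical
  subst hB
  by_cases hXe : X = ∅
  · subst hXe
    simp
  obtain ⟨x₀, hx₀⟩ := Finset.nonempty_iff_ne_empty.2 hXe
  have hmem : ∀ i, gen k f i ∈ Algebra.adjoin k (Set.range (gen k f)) := fun i =>
    Algebra.subset_adjoin ⟨i, rfl⟩
  have hA : ∀ b, IsIntegral (Algebra.adjoin k (Set.range (gen k f))) b →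
      b ∈ Algebra.adjoin k (Set.range (gen k f)) := fun b hb =>
    mem_of_isIntegral (gen_indep hf) (gen_top f) b hb
  have hX' : ∀ x, ov x ↔ ∀ i, x (toC L _ ⟨gen k f i, hmem i⟩) = 0 := hover
  -- the points over `0`
  have hz : ∀ x, ov x → x.comp (toC L _) = x₀.comp (toC L
      (Algebra.adjoin k (Set.range (gen k f)))) := by
    intro x hx
    apply AlgHom.ext
    rintro ⟨a, ha⟩
    refine Algebra.adjoin_induction (p := fun a ha => x (toC L _ ⟨a, ha⟩) =
      x₀ (toC L _ ⟨a, ha⟩)) ?_ ?_ ?_ ?_ ha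
    · rintro _ ⟨i, rfl⟩
      exact ((hX' x).1 hx i).trans ((hX' x₀).1 (hX x₀ hx₀) i).symm
    · intro c
      exact (x.commutes c).trans (x₀.commutes c).symm
    · intro a b ha hb h2 h3
      exact (map_add x (toC L _ ⟨a, ha⟩) (toC L _ ⟨b, hb⟩)).trans ((congrArg₂ (· + ·) h2 h3).trans
        (map_add x₀ (toC L _ ⟨a, ha⟩) (toC L _ ⟨b, hb⟩)).symm)
    · intro a b ha hb h2 h3
      exact (map_mul x (toC L _ ⟨a, ha⟩) (toC L _ ⟨b, hb⟩)).trans ((congrArg₂ (· * ·) h2 h3).trans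
        (map_mul x₀ (toC L _ ⟨a, ha⟩) (toC L _ ⟨b, hb⟩)).symm)
  have hz' : ∀ x, x.comp (toC L _) = x₀.comp (toC L
      (Algebra.adjoin k (Set.range (gen k f)))) → ov x := by
    intro x hx
    rw [hX']
    intro i
    exact (DFunLike.congr_fun hx ⟨gen k f i, hmem i⟩).trans ((hX' x₀).1 (hX x₀ hx₀) i)
  have hY : ∀ x, x ∈ hfin.toFinset ↔ x.comp (toC L _) = x₀.comp (toC L
      (Algebra.adjoin k (Set.range (gen k f)))) := by
    intro x
    rw [Set.Finite.mem_toFinset]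
    exact ⟨hz x, hz' x⟩
  have hrho := Pool.Agent.TG82.rho_unique hA (x₀.comp (toC L _)) hfin.toFinset hY r (by
    intro a N hN
    obtain ⟨N', h1, h2⟩ := hnorm a
    have h3 : toC L _ N = N' := by
      refine Subtype.ext ?_
      rw [h1, ← hN]
      rfl
    rw [AlgHom.comp_apply, h3, h2 x₀ (hX x₀ hx₀), finprod_eq_prod_of_mulSupport_subset]
    intro y hy
    rw [Set.Finite.coe_toFinset]
    refine (hsupp y).1 fun h => hy ?_
    show y a ^ r y = 1
    rw [h, pow_zero])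
  have h1 : ∑ x ∈ X, r x = ∑ x ∈ X, Pool.Agent.TG82.rho _ x :=
    Finset.sum_congr rfl fun x hx => (hrho x (hfin.mem_toFinset.2 (hX x hx))).symm
  rw [h1]
  exact sum_rho_le (gen k f) (gen_indep hf) (gen_top f) _ rfl hmem hA X
    (fun x hx => (hX' x).1 (hX x hx)) R hfrac m hm v hv s hred hR C hfinR hmult

/-- **COUNT**, in terms of `IsRho`. -/
theorem sum_le_of_isRho [IsAlgClosed k] {n : ℕ} (f : Fin n → L) (hf : AlgebraicIndependent k f)
    [FiniteDimensional (IntermediateField.adjoin k (Set.range f)) L]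
    [Algebra.IsSeparable (IntermediateField.adjoin k (Set.range f)) L]
    {r : (icf k f →ₐ[k] k) → ℕ} (hr : IsRho f r)
    (X : Finset (icf k f →ₐ[k] k)) (hX : ∀ x ∈ X, Over0 f x)
    (R : Subalgebra k L) (hfrac : ∀ f : L, ∃ a ∈ R, ∃ b ∈ R, b ≠ 0 ∧ f = a / b)
    (m : Ideal R) (hm : m.FG) (v : Fin n → R) (hv : ∀ i, (v i : L) = f i)
    (s : ℕ) (hred : m ^ (s + 1) ≤ Ideal.span (Set.range v) * m ^ s ⊔ m ^ (s + 2))
    (hR : ∀ x ∈ X, ∀ a : R, ∃ b s : icf k f, x s ≠ 0 ∧ (a : L) * s = b ∧ (a ∈ m → x b = 0))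
    (C : ℕ) (hfinR : ∀ t, FiniteDimensional k (R ⧸ m ^ t))
    (hmult : ∃ᶠ t in atTop, finrank k (R ⧸ m ^ t) < C * t ^ n) :
    ∑ x ∈ X, r x ≤ C * n.factorial :=
  sum_le_aux f hf (kf k f) (up_gen f).symm (fun i => (icf.X f i).2) (Over0 f) (fun _ => Iff.rfl)
    r hr.fin hr.supp hr.norm X hX R hfrac m hm v hv s hred hR C hfinR hmult

end Pool.Agent.TGh14
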