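import Pool.Agent.Lib.TG_h14.Emb
import Pool.Agent.Lib.TGJ.Iface

/-!
# TANK G, BC (4): the bound in the language of block C
-/

set_option autoImplicit false

namespace Pool.Agent.TGh14

open Module Filter
open Pool.Agent.TG (ncl up)
open Pool.Agent.TG82 (toC)
open Pool.Agent.TGJ (icf kf Over0 IsRho Doms)

universe u

section Poly

variable {k L : Type u} [Field k] [Field L] [Algebra k L]

/-- `k[u]` is integrally closed in `k(u)`, `u` algebraically independent. -/
theorem mem_of_isIntegral {F : Type u} [Field F] [Algebra k F] {n : ℕ} {u : Fin n → F}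
    (hu : AlgebraicIndependent k u) (hF : IntermediateField.adjoin k (Set.range u) = ⊤) (b : F)
    (hb : IsIntegral (Algebra.adjoin k (Set.range u)) b) : b ∈ Algebra.adjoin k (Set.range u) := by
  have hfr : IsFractionRing (Algebra.adjoin k (Set.range u)) F := by
    refine IsFractionRing.of_field _ _ fun z => ?_
    have h1 : z ∈ IntermediateField.adjoin k (Set.range u) := by rw [hF]; trivial
    rw [IntermediateField.mem_adjoin_iff_div] at h1
    obtain ⟨r, hr, s, hs, hz⟩ := h1
    exact ⟨⟨r, hr⟩, ⟨s, hs⟩, hz⟩
  have hic : IsIntegrallyClosed (Algebra.adjoin k (Set.range u)) :=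
    IsIntegrallyClosed.of_equiv (R := MvPolynomial (Fin n) k) hu.aevalEquiv.toRingEquiv
  obtain ⟨y, hy⟩ := (isIntegrallyClosed_iff F).1 hic hb
  rw [← hy]
  exact y.2

end Poly

end Pool.Agent.TGh14
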