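import Pool.Agent.Lib.TG_h14.IsRho
import Pool.Agent.Lib.TGBC_h29.G1Pt

/-!
# TANK G, BC (4): `ρ(x; u) ≤ (n + 7) n!` at the point of the tuple `g`
-/

set_option autoImplicit false

namespace Pool.Agent.TGh14

open Module Filter
open Pool.Agent.TG (ncl up ch IsMin ZDim)
open Pool.Agent.TG15 (hx mx)
open Pool.Agent.TGBC (PtData)
open Pool.Agent.TGJ (icf kf Over0 IsRho Doms Rho rho)

universe u

section Gen

variable {k L : Type u} [Field k] [Field L] [Algebra k L]

/-- **COUNT for `Rho`.** -/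
theorem Rho_le_of_mult [IsAlgClosed k] {n : ℕ} (S : Subalgebra k L) (res : S →ₐ[k] k)
    (f : Fin n → S) (hf : AlgebraicIndependent k (fun i => (f i : L)))
    [FiniteDimensional (IntermediateField.adjoin k (Set.range fun i => (f i : L))) L]
    [Algebra.IsSeparable (IntermediateField.adjoin k (Set.range fun i => (f i : L))) L]
    (R : Subalgebra k L) (hRS : R ≤ S) (hfrac : ∀ f : L, ∃ a ∈ R, ∃ b ∈ R, b ≠ 0 ∧ f = a / b)
    (m : Ideal R) (hm : m.FG) (hres : ∀ a ∈ m, res (Subalgebra.inclusion hRS a) = 0)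
    (v : Fin n → R) (hv : ∀ i, (v i : L) = f i)
    (s : ℕ) (hred : m ^ (s + 1) ≤ Ideal.span (Set.range v) * m ^ s ⊔ m ^ (s + 2))
    (C : ℕ) (hfinR : ∀ t, FiniteDimensional k (R ⧸ m ^ t))
    (hmult : ∃ᶠ t in atTop, finrank k (R ⧸ m ^ t) < C * t ^ n) :
    Rho S.val res f ≤ C * n.factorial := by
  classical
  unfold Rho
  by_cases h : ∃ r, IsRho (k := k) (fun i => S.val (f i)) r
  · have h1 : ∀ x, rho (k := k) (fun i => S.val (f i)) x = h.choose x := by
      intro x
      unfold rho
      rw [dif_pos h]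
    have hr := h.choose_spec
    have hfin : {x : icf k (fun i => S.val (f i)) →ₐ[k] k | Over0 _ x ∧
        Doms S.val res _ x}.Finite := hr.fin.subset fun x hx => hx.1
    rw [finsum_mem_congr rfl fun x _ => h1 x, finsum_mem_eq_finite_toFinset_sum _ hfin]
    refine sum_le_of_isRho (fun i => (f i : L)) hf hr hfin.toFinset
      (fun x hx => (hfin.mem_toFinset.1 hx).1) R hfrac m hm v hv s hred ?_ C hfinR hmult
    intro x hx a
    obtain ⟨b, t, h2, h3, h4⟩ := (hfin.mem_toFinset.1 hx).2 (Subalgebra.inclusion hRS a)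
    exact ⟨b, t, fun h5 => one_ne_zero (h2.symm.trans h5), h3, fun ha => h4.trans (hres a ha)⟩
  · have h1 : ∀ x, rho (k := k) (fun i => S.val (f i)) x = 0 := by
      intro x
      unfold rho
      rw [dif_neg h]
    rw [finsum_mem_congr rfl fun x _ => h1 x, finsum_mem_zero]
    exact Nat.zero_le _

end Gen

section Tuple

variable {k K : Type u} [Field k] [Field K] [Algebra k K] {V : ValuationSubring K}
  {H : Submodule k K}

/-- The field of fractions of a chart is `k(H / H)`. -/
theorem frac_ch {g₀ : K} (hg : g₀ ≠ 0)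
    (hK : IntermediateField.adjoin k {x : K | ∃ f ∈ H, ∃ g ∈ H, x = g / f} = ⊤) (z : K) :
    ∃ a ∈ ch H g₀, ∃ b ∈ ch H g₀, b ≠ 0 ∧ z = a / b := by
  have h1 : IntermediateField.adjoin k {x : K | ∃ f ∈ H, ∃ g ∈ H, x = g / f} ≤
      IntermediateField.adjoin k (ch H g₀ : Set K) := by
    rw [IntermediateField.adjoin_le_iff]
    rintro _ ⟨f, hf, g, hg', rfl⟩
    have h2 : f / g₀ ∈ IntermediateField.adjoin k (ch H g₀ : Set K) :=
      IntermediateField.subset_adjoin k _ (TG.div_mem_ch hf)
    have h3 : g / g₀ ∈ IntermediateField.adjoin k (ch H g₀ : Set K) :=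
      IntermediateField.subset_adjoin k _ (TG.div_mem_ch hg')
    have h4 : g / f = g / g₀ / (f / g₀) := by
      rw [div_div_div_cancel_right₀ hg]
    rw [h4]
    exact div_mem h3 h2
  have h2 : z ∈ IntermediateField.adjoin k (ch H g₀ : Set K) := h1 (hK ▸ trivial)
  rw [IntermediateField.mem_adjoin_iff_div, Algebra.adjoin_eq] at h2
  obtain ⟨r, hr, s, hs, hz⟩ := h2
  by_cases hs0 : s = 0
  · refine ⟨0, zero_mem _, 1, one_mem _, one_ne_zero, ?_⟩
    rw [hz, hs0]
    simp
  · exact ⟨r, hr, s, hs, hs0, hz⟩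

/-- **BC4.**  The local degree of `u = (g_l / g_0)` at the point of `V` is at most `(n + 7) n!`. -/
theorem Rho_le_of_ptData [IsAlgClosed k] {n : ℕ} {q : (Fin (n + 1) → K) → K} {L W : Submodule k K}
    {M N : ℕ} {τ : K} {T : ℕ} {g : Fin (n + 1) → K} (hV : ZDim k V) (hH : (W * L).FG)
    (hK : IntermediateField.adjoin k {x : K | ∃ f ∈ W * L, ∃ g ∈ W * L, x = g / f} = ⊤)
    (hg : PtData q L W M N τ V T g)
    (S : Subalgebra k K) (res : S →ₐ[k] k) (hres : ∀ a : S, V.valuation (a : K) < 1 → res a = 0)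
    (hS : ch (W * L) (g 0) ≤ S) (f : Fin n → S) (hf : ∀ l, (f l : K) = g l.succ / g 0)
    (hind : AlgebraicIndependent k fun l : Fin n => g l.succ / g 0)
    [hfd : FiniteDimensional
      (IntermediateField.adjoin k (Set.range fun l : Fin n => g l.succ / g 0)) K]
    [hsep : Algebra.IsSeparable
      (IntermediateField.adjoin k (Set.range fun l : Fin n => g l.succ / g 0)) K] :
    Rho S.val res f ≤ (n + 7) * n.factorial := by
  have hfu : (fun i => (f i : K)) = fun l : Fin n => g l.succ / g 0 := funext hf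
  rw [← hfu] at hind
  have hfd' : FiniteDimensional (IntermediateField.adjoin k (Set.range fun i => (f i : K))) K := by
    rw [hfu]
    exact hfd
  have hsep' : Algebra.IsSeparable
      (IntermediateField.adjoin k (Set.range fun i => (f i : K))) K := by
    rw [hfu]
    exact hsep
  have hft : Algebra.FiniteType k (ch (W * L) (g 0)) :=
    (ch (W * L) (g 0)).fg_iff_finiteType.1 (TG.ch_fg hH)
  have hnoe : IsNoetherianRing (ch (W * L) (g 0)) := Algebra.FiniteType.isNoetherianRing k _
  obtain ⟨r, hr⟩ := hg.red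
  have hmem : ∀ l : Fin n, g l.succ ∈ W * L := fun l => TG15.hx_le (hg.mem l)
  have hspan := TGBC.span_range_eq_mx (H := W * L) (f := g 0) (y := fun l : Fin n => g l.succ)
    (TGBC.uvec g hmem) (fun l => rfl)
  rw [← hspan] at hr
  refine Rho_le_of_mult S res f hind (ch (W * L) (g 0)) hS (frac_ch hg.min.ne hK)
    (mx (W * L) (g 0) (hx V (W * L))) (IsNoetherian.noetherian _) ?_ (TGBC.uvec g hmem)
    (fun i => (hf i).symm) r hr (n + 7)
    (fun t => TG15.finite_quot hV hH hg.min t _ le_rfl) hg.mult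
  intro a ha
  refine hres _ ?_
  show V.valuation (a : K) < 1
  refine Submodule.span_induction (R := ch (W * L) (g 0)) (M := ch (W * L) (g 0))
    (s := {a | ∃ h ∈ hx V (W * L), (a : K) = h / g 0})
    (p := fun (a : ch (W * L) (g 0)) _ => V.valuation (a : K) < 1) ?_ ?_ ?_ ?_ ha
  · rintro a ⟨x, hx', hxa⟩
    rw [hxa]
    have h0 : V.valuation (g 0) ≠ 0 := (Valuation.ne_zero_iff _).2 hg.min.ne
    rcases hx'.2 with rfl | ⟨z, hz, hlt⟩
    · rw [zero_div, map_zero]
      exact zero_lt_one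
    · have h2 : V.valuation z ≤ V.valuation (g 0) := by
        have h3 := (V.valuation_le_one_iff _).2 (hg.min.div z hz)
        rw [map_div₀] at h3
        exact (div_le_one₀ (zero_lt_iff.2 h0)).1 h3
      rw [map_div₀, div_lt_one₀ (zero_lt_iff.2 h0)]
      exact hlt.trans_le h2
  · show V.valuation (0 : K) < 1
    rw [map_zero]
    exact zero_lt_one
  · intro x y _ _ hx' hy'
    exact (V.valuation.map_add _ _).trans_lt (max_lt hx' hy')
  · intro r x _ hx'
    show V.valuation ((r : K) * (x : K)) < 1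
    rw [map_mul]
    have h3 : V.valuation (r : K) ≤ 1 := (V.valuation_le_one_iff _).2 (TG.ch_le hV.ov hg.min _ r.2)
    calc V.valuation (r : K) * V.valuation (x : K) ≤ 1 * V.valuation (x : K) := by gcongr
      _ < 1 := by rw [one_mul]; exact hx'

end Tuple

end Pool.Agent.TGh14
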