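import Pool.Agent.Lib.TG_h14.Count
import Pool.Agent.Lib.LU1_h15.ExtVal_H1
import Pool.Agent.Lib.TA.CentreA

/-!
# TANK G, BC (4): root multiplicities of the reduced characteristic polynomial
-/

set_option autoImplicit false

namespace Pool.Agent.TGh14

open Module
open Pool.Agent.H15JM (RVal)
open Pool.Agent.LU1 (VPos)

section Ring

variable {Ω : Type*} [Field Ω]

/-- The valuation ring. -/
def vring (ω : RVal Ω) : Subring Ω where
  carrier := {x | ω.Ge 0 x}
  mul_mem' := fun ha hb => by simpa using RVal.Ge.mul ha hb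
  one_mem' := Pool.Agent.TA.ge_one
  add_mem' := fun ha hb => RVal.Ge.add ha hb
  zero_mem' := RVal.Ge.zero
  neg_mem' := fun ha => RVal.Ge.neg ha

theorem mem_vring {ω : RVal Ω} {x : Ω} : x ∈ vring ω ↔ ω.Ge 0 x := Iff.rfl

/-- The maximal ideal. -/
def vidl (ω : RVal Ω) : Ideal (vring ω) where
  carrier := {x | VPos ω (x : Ω)}
  add_mem' := fun ha hb => Pool.Agent.LU1.VPos.add ha hb
  zero_mem' := Pool.Agent.LU1.VPos.zero
  smul_mem' := fun a _ hb => Pool.Agent.LU1.VPos.mul' (a.2 : ω.Ge 0 _) hb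

theorem mem_vidl {ω : RVal Ω} {x : vring ω} : x ∈ vidl ω ↔ VPos ω (x : Ω) := Iff.rfl

instance vidl_prime (ω : RVal Ω) : (vidl ω).IsPrime := by
  refine ⟨?_, ?_⟩
  · intro h
    have h1 : (1 : vring ω) ∈ vidl ω := by rw [h]; trivial
    have h2 : VPos ω (1 : Ω) := h1
    have h3 := h2 one_ne_zero
    rw [ω.map_one] at h3
    exact lt_irrefl _ h3
  · intro a b hab
    by_contra hcon
    push Not at hcon
    obtain ⟨ha, hb⟩ := hcon
    have ha' : ¬ VPos ω (a : Ω) := ha
    have hb' : ¬ VPos ω (b : Ω) := hb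
    unfold VPos at ha' hb'
    push Not at ha' hb'
    have h1 : VPos ω ((a : Ω) * (b : Ω)) := hab
    have h2 := h1 (mul_ne_zero ha'.1 hb'.1)
    rw [ω.map_mul ha'.1 hb'.1] at h2
    linarith [ha'.2, hb'.2]

open Polynomial in
/-- Root multiplicities of a reduced polynomial count the roots with the given residue. -/
theorem rootMultiplicity_eq_card (ω : RVal Ω) {B k : Type*} [CommRing B] [Field k]
    (ι : B →+* Ω) (hι : ∀ b, ω.Ge 0 (ι b)) (j : k →+* Ω) (hj : ∀ c, ω.Ge 0 (j c))
    (ε : B →+* k) (hε : ∀ b, VPos ω (ι b - j (ε b))) (f : B[X]) {Q : Type*} [Fintype Q]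
    (r : Q → Ω) (hr : ∀ q, ω.Ge 0 (r q)) (hf : f.map ι = ∏ q, (X - C (r q))) (α : k) :
    (f.map ε).rootMultiplicity α = Nat.card {q // VPos ω (r q - j α)} := by
  classical
  let ι' : B →+* vring ω := ι.codRestrict (vring ω) hι
  let j' : k →+* vring ω := j.codRestrict (vring ω) hj
  let r' : Q → vring ω := fun q => ⟨r q, hr q⟩
  let π : vring ω →+* (vring ω ⧸ vidl ω) := Ideal.Quotient.mk (vidl ω)
  have h1 : f.map ι' = ∏ q, (X - C (r' q)) := by
    apply Polynomial.map_injective (vring ω).subtype Subtype.val_injective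
    rw [Polynomial.map_map, Polynomial.map_prod]
    have h2 : (vring ω).subtype.comp ι' = ι := rfl
    rw [h2, hf]
    refine Finset.prod_congr rfl fun q _ => ?_
    rw [Polynomial.map_sub, Polynomial.map_X, Polynomial.map_C]
    rfl
  have h2 : π.comp ι' = (π.comp j').comp ε := by
    ext b
    change π (ι' b) = π (j' (ε b))
    rw [← sub_eq_zero, ← map_sub]
    exact Ideal.Quotient.eq_zero_iff_mem.2 (hε b)
  have h3 : (f.map ε).map (π.comp j') = ∏ q, (X - C (π (r' q))) := by
    rw [Polynomial.map_map, ← h2, ← Polynomial.map_map, h1, Polynomial.map_prod]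
    refine Finset.prod_congr rfl fun q _ => ?_
    rw [Polynomial.map_sub, Polynomial.map_X, Polynomial.map_C]
  have h4 : (∏ q, (X - C (π (r' q)))).roots = Finset.univ.val.map (fun q => π (r' q)) := by
    have h5 := Polynomial.roots_multiset_prod_X_sub_C (Finset.univ.val.map (fun q => π (r' q)))
    rw [Multiset.map_map] at h5
    exact h5
  rw [Polynomial.eq_rootMultiplicity_map (π.comp j').injective, h3, ← Polynomial.count_roots, h4]
  rw [Multiset.count_map]
  rw [Nat.card_eq_fintype_card, Fintype.card_subtype, ← Finset.filter_val, Finset.card_val]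
  congr 1
  ext q
  simp only [Finset.mem_filter, Finset.mem_univ, true_and]
  change π (j' α) = π (r' q) ↔ _
  rw [eq_comm, ← sub_eq_zero, ← map_sub]
  exact Ideal.Quotient.eq_zero_iff_mem

end Ring

end Pool.Agent.TGh14
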