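import Pool.Agent.Lib.TG_h14.Pt
import Pool.Agent.Lib.TGBC_h95.Point

/-!
# TANK G, BC (4): row RHO
-/

set_option autoImplicit false

namespace Pool.Agent.TGh14

open Module Filter
open Pool.Agent.TG (ncl up ch IsMin ZDim IsModel Fin' NV)
open Pool.Agent.TG15 (hx mx)
open Pool.Agent.TGJ (Rho)

universe u

variable {k K : Type u} [Field k] [Field K] [Algebra k K]

/-- A finitely generated field is finite over a transcendence basis. -/
theorem finiteDimensional_of_fg (hfg : (⊤ : IntermediateField k K).FG) {n : ℕ} {u : Fin n → K}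
    (hu : AlgebraicIndependent k u) (htr : Algebra.trdeg k K = n) :
    FiniteDimensional (IntermediateField.adjoin k (Set.range u)) K := by
  have hess : Algebra.EssFiniteType k K := IntermediateField.fg_top_iff.1 hfg
  have hb : IsTranscendenceBasis k u := hu.isTranscendenceBasis_of_lift_trdeg_le_of_finite (by
    rw [htr, Cardinal.mk_fin]
    simp)
  have halg : Algebra.IsAlgebraic (IntermediateField.adjoin k (Set.range u)) K :=
    hb.isAlgebraic_field
  have hess' : Algebra.EssFiniteType (IntermediateField.adjoin k (Set.range u)) K :=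
    Algebra.EssFiniteType.of_comp k _ _
  exact Algebra.finite_of_essFiniteType_of_isAlgebraic

/-- The chart is birational: `k(H / H) = K`. -/
def Bir (H : Submodule k K) : Prop :=
  IntermediateField.adjoin k {x : K | ∃ f ∈ H, ∃ g ∈ H, x = g / f} = ⊤

theorem Bir.fin {H : Submodule k K} (hH : Bir H) : Fin' H := by
  refine ⟨fun x => ?_⟩
  have h1 : x ∈ IntermediateField.adjoin k {x : K | ∃ f ∈ H, ∃ g ∈ H, x = g / f} := by
    have h2 : IntermediateField.adjoin k {x : K | ∃ f ∈ H, ∃ g ∈ H, x = g / f} = ⊤ := hH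
    rw [h2]
    trivial
  exact isAlgebraic_algebraMap (⟨x, h1⟩ :
    IntermediateField.adjoin k {x : K | ∃ f ∈ H, ∃ g ∈ H, x = g / f})

/-- `W L` is birational if `L` generates `K`. -/
theorem bir_mul {L W : Submodule k K} (hL : IntermediateField.adjoin k (L : Set K) = ⊤)
    (h1 : 1 ∈ L) (hW : W ≠ ⊥) : Bir (W * L) := by
  unfold Bir
  obtain ⟨w, hw, hw0⟩ := Submodule.exists_mem_ne_zero_of_ne_bot hW
  rw [eq_top_iff, ← hL, IntermediateField.adjoin_le_iff]
  intro x hx'
  refine IntermediateField.subset_adjoin k _ ⟨w * 1, Submodule.mul_mem_mul hw h1, w * x,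
    Submodule.mul_mem_mul hw hx', ?_⟩
  rw [mul_one, mul_div_cancel_left₀ _ hw0]

theorem pow_le_adjoin (L : Submodule k K) (c : ℕ) (x : K) (hx : x ∈ L ^ c) :
    x ∈ IntermediateField.adjoin k (L : Set K) := by
  induction c generalizing x with
  | zero =>
    rw [pow_zero] at hx
    obtain ⟨a, rfl⟩ := Submodule.mem_one.1 hx
    exact IntermediateField.algebraMap_mem _ a
  | succ c ih =>
    rw [pow_succ] at hx
    refine Submodule.mul_induction_on hx ?_ ?_
    · intro a ha b hb
      exact mul_mem (ih a ha) (IntermediateField.subset_adjoin k _ hb)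
    · intro a b ha hb
      exact add_mem ha hb

/-- The field generated by `L`, from the data of BC11. -/
theorem adjoin_eq_top {L : Submodule k K} {τ : K} {c : ℕ} (hτ : τ ∈ L ^ c)
    (h : ∀ x : K, ∃ a ∈ Algebra.adjoin k ((L : Set K) ∪ {τ⁻¹}),
      ∃ b ∈ Algebra.adjoin k ((L : Set K) ∪ {τ⁻¹}), b ≠ 0 ∧ x = a / b) :
    IntermediateField.adjoin k (L : Set K) = ⊤ := by
  have h1 : Algebra.adjoin k ((L : Set K) ∪ {τ⁻¹}) ≤
      (IntermediateField.adjoin k (L : Set K)).toSubalgebra := by
    rw [Algebra.adjoin_le_iff]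
    rintro x (hx' | hx')
    · exact IntermediateField.subset_adjoin k _ hx'
    · rw [Set.mem_singleton_iff] at hx'
      rw [hx']
      exact (IntermediateField.adjoin k (L : Set K)).inv_mem (pow_le_adjoin L c τ hτ)
  rw [eq_top_iff]
  intro x _
  obtain ⟨a, ha, b, hb, -, rfl⟩ := h x
  exact div_mem (h1 ha) (h1 hb)

/-- **ROW RHO.** -/
theorem rowRho [IsAlgClosed k] (hfg : (⊤ : IntermediateField k K).FG) (n : ℕ)
    (htr : Algebra.trdeg k K = n) (H : Submodule k K) (hH : IsModel H) (hK : Bir H)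
    (V : ValuationSubring K) (hV : ZDim k V) (res : NV V H →ₐ[k] k)
    (hres : ∀ s : NV V H, res s = 0 ↔ V.valuation (s : K) < 1) (g : Fin (n + 1) → K)
    (hmin : IsMin V H (g 0)) (hmem : ∀ l : Fin n, g l.succ ∈ hx V H)
    (hred : ∃ r : ℕ, mx H (g 0) (hx V H) ^ (r + 1) ≤
        mx H (g 0) (Submodule.span k (Set.range fun l : Fin n => g l.succ)) *
          mx H (g 0) (hx V H) ^ r ⊔ mx H (g 0) (hx V H) ^ (r + 2))
    (hmult : ∃ᶠ t in atTop, finrank k (ch H (g 0) ⧸ mx H (g 0) (hx V H) ^ t) < (n + 7) * t ^ n)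
    (u : Fin n → NV V H) (hu : ∀ l, (u l : K) = g l.succ / g 0)
    (hsep : Algebra.IsSeparable (IntermediateField.adjoin k (Set.range fun l => (u l : K))) K) :
    Rho (NV V H).val res u ≤ (n + 7) * n.factorial := by
  have hmemH : ∀ l : Fin n, g l.succ ∈ H := fun l => TG15.hx_le (hmem l)
  have hspan := TGBC.span_range_eq_mx (H := H) (f := g 0) (y := fun l : Fin n => g l.succ)
    (TGBC.uvec g hmemH) (fun l => rfl)
  have hspan2 : Ideal.span {a : ch H (g 0) | ∃ l : Fin n, (a : K) = g l.succ / g 0} =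
      mx H (g 0) (Submodule.span k (Set.range fun l : Fin n => g l.succ)) := by
    rw [← hspan]
    congr 1
    ext a
    constructor
    · rintro ⟨l, hl⟩
      exact ⟨l, Subtype.ext hl.symm⟩
    · rintro ⟨l, rfl⟩
      exact ⟨l, rfl⟩
  have hind : AlgebraicIndependent k fun l : Fin n => g l.succ / g 0 :=
    (TGBC95.point htr hH hK.fin hV hmin hmin (g := fun l : Fin n => g l.succ) hmem (by
      rw [hspan2]
      exact hred)).1
  have hfu : (fun i => (u i : K)) = fun l : Fin n => g l.succ / g 0 := funext hu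
  rw [← hfu] at hind
  have hfd : FiniteDimensional (IntermediateField.adjoin k (Set.range fun i => (u i : K))) K :=
    finiteDimensional_of_fg hfg hind htr
  have hft : Algebra.FiniteType k (ch H (g 0)) :=
    (ch H (g 0)).fg_iff_finiteType.1 (TG.ch_fg hH.fg)
  have hnoe : IsNoetherianRing (ch H (g 0)) := Algebra.FiniteType.isNoetherianRing k _
  obtain ⟨r, hr⟩ := hred
  rw [← hspan] at hr
  have hchRV : ch H (g 0) ≤ NV V H := by
    refine le_trans ?_ TG.RV_le_NV
    rw [TG.RV_eq hmin]
    exact LU2.le_locV _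
  refine Rho_le_of_mult (NV V H) res u hind (ch H (g 0)) hchRV (frac_ch hmin.ne hK)
    (mx H (g 0) (hx V H)) (IsNoetherian.noetherian _) ?_ (TGBC.uvec g hmemH)
    (fun i => (hu i).symm) r hr (n + 7)
    (fun t => TG15.finite_quot hV hH.fg hmin t _ le_rfl) hmult
  intro a ha
  rw [hres]
  show V.valuation (a : K) < 1
  refine Submodule.span_induction (R := ch H (g 0)) (M := ch H (g 0))
    (s := {a | ∃ h ∈ hx V H, (a : K) = h / g 0})
    (p := fun (a : ch H (g 0)) _ => V.valuation (a : K) < 1) ?_ ?_ ?_ ?_ ha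
  · rintro a ⟨x, hx', hxa⟩
    rw [hxa]
    exact TGBC95.hx_div_lt hmin hx'
  · show V.valuation (0 : K) < 1
    rw [map_zero]
    exact zero_lt_one
  · intro x y _ _ hx' hy'
    exact (V.valuation.map_add _ _).trans_lt (max_lt hx' hy')
  · intro r x _ hx'
    show V.valuation ((r : K) * (x : K)) < 1
    rw [map_mul]
    have h3 : V.valuation (r : K) ≤ 1 := (V.valuation_le_one_iff _).2 (TG.ch_le hV.ov hmin _ r.2)
    calc V.valuation (r : K) * V.valuation (x : K) ≤ 1 * V.valuation (x : K) := by gcongr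
      _ < 1 := by rw [one_mul]; exact hx'

end Pool.Agent.TGh14
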